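import Pool.Agent.R246.SK.Defs

/-!
Project SK, piece FT3: Parseval and product formula for Fourier coefficients.
-/

set_option autoImplicit false

open scoped ContDiff ComplexConjugate
open Filter MeasureTheory

namespace Pool.Agent.R999.SK

open Pool.Agent.R246.SK

lemma ee_norm (n : ℤ) (t : ℝ) : ‖ee n t‖ = 1 := by
  unfold ee
  have : Complex.I * (n : ℂ) * (t : ℂ) = ((n * t : ℝ) : ℂ) * Complex.I := by push_cast; ring
  rw [this, Complex.norm_exp_ofReal_mul_I]

lemma ee_cont (n : ℤ) : Continuous (ee n) := by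
  unfold ee
  fun_prop

lemma ee_add (n m : ℤ) (t : ℝ) : ee n t * ee m t = ee (n + m) t := by
  unfold ee
  rw [← Complex.exp_add]
  congr 1
  push_cast
  ring

lemma ee_conj (n : ℤ) (t : ℝ) : conj (ee (-n) t) = ee n t := by
  unfold ee
  rw [← Complex.exp_conj]
  congr 1
  simp

lemma sum_inv : Summable fun n : ℤ => 1 / (1 + |(n : ℝ)|) ^ 2 := by
  have h : Summable fun n : ℕ => 1 / (1 + (n : ℝ)) ^ 2 := by
    have h1 : Summable fun n : ℕ => 1 / (n : ℝ) ^ 2 := Real.summable_one_div_nat_pow.2 (by norm_num)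
    have h2 := (summable_nat_add_iff 1).2 h1
    refine h2.congr fun n => ?_
    push_cast
    rw [add_comm]
  refine Summable.of_nat_of_neg ?_ ?_
  · refine h.congr fun n => ?_
    simp
  · refine h.congr fun n => ?_
    simp

lemma RD_summable {c : ℤ → ℂ} (h : RD c) : Summable fun n => ‖c n‖ := by
  obtain ⟨C, hC⟩ := h 2
  refine Summable.of_nonneg_of_le (fun n => norm_nonneg _) (fun n => ?_) (sum_inv.mul_left C)
  have h1 : 0 < (1 + |(n : ℝ)|) ^ 2 := by positivity
  rw [mul_one_div, le_div_iff₀ h1]
  exact hC n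

lemma swap {f g : ℝ → ℂ} {c : ℤ → ℂ} (hc : Summable fun n => ‖c n‖) (hg : Continuous g)
    (hf : ∀ t, HasSum (fun n : ℤ => c n * ee n t) (f t)) :
    HasSum (fun n : ℤ => ∫ t in (0 : ℝ)..(2 * Real.pi), c n * ee n t * g t)
      (∫ t in (0 : ℝ)..(2 * Real.pi), f t * g t) := by
  refine intervalIntegral.hasSum_integral_of_dominated_convergence (fun n t => ‖c n‖ * ‖g t‖) ?_ ?_ ?_ ?_ ?_
  · intro n
    exact ((continuous_const.mul (ee_cont n)).mul hg).aestronglyMeasurable
  · intro n
    refine Eventually.of_forall fun t _ => ?_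
    rw [norm_mul, norm_mul, ee_norm, mul_one]
  · exact Eventually.of_forall fun t _ => hc.mul_right _
  · simp only [tsum_mul_right]
    exact (continuous_const.mul hg.norm).intervalIntegrable _ _
  · exact Eventually.of_forall fun t _ => (hf t).mul_right _

lemma conj_int (h : ℝ → ℂ) : conj (∫ t in (0 : ℝ)..(2 * Real.pi), h t) =
    ∫ t in (0 : ℝ)..(2 * Real.pi), conj (h t) := by
  have hp : (0 : ℝ) ≤ 2 * Real.pi := by positivity
  rw [intervalIntegral.integral_of_le hp, intervalIntegral.integral_of_le hp, integral_conj]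

theorem s_ft3 (h1 : S_FT1) : S_FT3 := by
  intro f g hf hg
  obtain ⟨hfR, hfS, -, -⟩ := h1 f hf
  obtain ⟨hgR, hgS, -, -⟩ := h1 g hg
  have hfc : Continuous f := hf.1.continuous
  have hgc : Continuous g := hg.1.continuous
  constructor
  · have h2 := (swap (g := fun t => conj (g t)) (RD_summable hfR)
      (Complex.continuous_conj.comp hgc) hfS).mul_left (((1 / (2 * Real.pi) : ℝ) : ℂ))
    refine h2.congr_fun fun n => ?_
    have e : conj (fc g n) = ((1 / (2 * Real.pi) : ℝ) : ℂ) *
        ∫ t in (0 : ℝ)..(2 * Real.pi), ee n t * conj (g t) := by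
      unfold fc
      rw [map_mul, Complex.conj_ofReal, conj_int]
      congr 1
      refine intervalIntegral.integral_congr fun t _ => ?_
      rw [map_mul, ee_conj, mul_comm]
    rw [e]
    have e2 : ∫ t in (0 : ℝ)..(2 * Real.pi), fc f n * ee n t * conj (g t) =
        fc f n * ∫ t in (0 : ℝ)..(2 * Real.pi), ee n t * conj (g t) := by
      rw [← intervalIntegral.integral_const_mul]
      refine intervalIntegral.integral_congr fun t _ => ?_
      ring
    rw [e2]
    ring
  · intro m
    have h2 := (swap (g := fun t => f t * ee (-m) t) (RD_summable hgR)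
      (hfc.mul (ee_cont _)) hgS).mul_left (((1 / (2 * Real.pi) : ℝ) : ℂ))
    have e0 : fc (fun t => f t * g t) m = ((1 / (2 * Real.pi) : ℝ) : ℂ) *
        ∫ t in (0 : ℝ)..(2 * Real.pi), g t * (f t * ee (-m) t) := by
      unfold fc
      congr 1
      refine intervalIntegral.integral_congr fun t _ => ?_
      simp only
      ring
    rw [e0]
    refine h2.congr_fun fun k => ?_
    have e2 : ∫ t in (0 : ℝ)..(2 * Real.pi), fc g k * ee k t * (f t * ee (-m) t) =
        fc g k * ∫ t in (0 : ℝ)..(2 * Real.pi), f t * ee (-(m - k)) t := by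
      rw [← intervalIntegral.integral_const_mul]
      refine intervalIntegral.integral_congr fun t _ => ?_
      have : ee (-(m - k)) t = ee k t * ee (-m) t := by
        rw [ee_add]; congr 1; ring
      rw [this]
      ring
    rw [e2]
    unfold fc
    ring

end Pool.Agent.R999.SK
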